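import Pool.Agent.R561.SG.Lower

/-!
# The bounded-response synchronization game can be superquadratic

There is a sequence of `A_2`-automata with `n = 2 ^ (i + 5)` states in which the length of the
`2`-game is at least `(7 / 512) * i * n ^ 2`, that is, of order at least `n ^ 2 * log n`.

The automaton has two cycles of lengths `p = 8 * l - 1` and `q = 8 * l` with `l = 2 ^ i`, which are
turned by one letter of Alice, copies of the two cycles in which the tokens wait for the answer of
Bob, and two more states. Another letter of Alice takes the tokens at the zeros of the two cycles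
away, so that they are merged if both are there, and Bob puts the result back to any position of
the second cycle; a third letter takes the token at the zero of the second cycle away, and Bob puts
it back to any position of the first cycle. Any answer of Bob other than a single such move loses
immediately. Alice wins since any two tokens in different cycles meet at the zeros after fewer than
`p * q` turns. Bob plays such that in every quarter of a round of `p * q` turns at most one half of
the tokens disappears.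
-/

set_option autoImplicit false

namespace Pool.Agent.Results.MP_3d7070_lc.SuperquadraticGame

open Pool.Agent.R561.SG Filter

theorem result : ∃ A : ℕ → Aut,
    (∀ i, (A i).IsA 2) ∧
    (∀ i, Nat.card (A i).Q = 2 ^ (i + 5)) ∧
    (∀ i, 7 * i * Nat.card (A i).Q ^ 2 ≤ 512 * (A i).gameLength 2) ∧
    Tendsto (fun i => Nat.card (A i).Q) atTop atTop ∧
    Tendsto (fun i => ((A i).gameLength 2 : ℝ) / (Nat.card (A i).Q : ℝ) ^ 2) atTop atTop := by
  have hpos : ∀ i : ℕ, 0 < 2 ^ i := fun i => by positivity
  have n1 : ∀ i : ℕ, NeZero (8 * 2 ^ i - 1) := fun i => ⟨by have := hpos i; omega⟩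
  have n2 : ∀ i : ℕ, NeZero (8 * 2 ^ i) := fun i => ⟨by have := hpos i; omega⟩
  let A : ℕ → Aut := fun i => @clock (8 * 2 ^ i - 1) (8 * 2 ^ i) (n1 i) (n2 i)
  have hp : ∀ i : ℕ, 8 * 2 ^ i - 1 + 1 = 8 * 2 ^ i := fun i => by have := hpos i; omega
  have hwin : ∀ i, ∃ N, (A i).WinsIn 2 N Set.univ := by
    intro i
    haveI := n1 i
    haveI := n2 i
    refine win_univ ?_
    have h1 : Nat.Coprime (8 * 2 ^ i - 1) (8 * 2 ^ i - 1 + 1) := by simp
    rwa [hp i] at h1
  have hcard : ∀ i, Nat.card (A i).Q = 2 ^ (i + 5) := by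
    intro i
    haveI := n1 i
    haveI := n2 i
    have h1 := card_clock (8 * 2 ^ i - 1) (8 * 2 ^ i)
    have h2 := hp i
    show Nat.card (clock (8 * 2 ^ i - 1) (8 * 2 ^ i)).Q = _
    rw [h1, pow_add]
    omega
  have hlow : ∀ i, 7 * i * Nat.card (A i).Q ^ 2 ≤ 512 * (A i).gameLength 2 := by
    intro i
    haveI := n1 i
    haveI := n2 i
    obtain ⟨N, hN⟩ := hwin i
    have h1 : i * (2 * 2 ^ i * (8 * 2 ^ i - 1)) < (A i).gameLength 2 :=
      lt_gameLength hN (not_winsIn_univ (hp i) rfl)
    have h2 : 7 * 2 ^ i ≤ 8 * 2 ^ i - 1 := by have := hpos i; omega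
    rw [hcard]
    have h3 : i * (2 * 2 ^ i * (7 * 2 ^ i)) ≤ i * (2 * 2 ^ i * (8 * 2 ^ i - 1)) :=
      Nat.mul_le_mul_left _ (Nat.mul_le_mul_left _ h2)
    have h4 : 7 * i * (2 ^ (i + 5)) ^ 2 = 512 * (i * (2 * 2 ^ i * (7 * 2 ^ i))) := by
      rw [pow_add]; ring
    rw [h4]
    omega
  refine ⟨A, fun i => ?_, hcard, hlow, ?_, ?_⟩
  · obtain ⟨N, hN⟩ := hwin i
    exact isA_of_winsIn hN
  · simp only [hcard]
    exact (tendsto_pow_atTop_atTop_of_one_lt (by norm_num : 1 < 2)).comp (tendsto_add_atTop_nat 5)
  · have h1 : Tendsto (fun i : ℕ => (7 / 512 : ℝ) * i) atTop atTop :=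
      (tendsto_natCast_atTop_atTop (R := ℝ)).const_mul_atTop (by norm_num)
    refine tendsto_atTop_mono (fun i => ?_) h1
    have h2 : (0 : ℝ) < (Nat.card (A i).Q : ℝ) ^ 2 := by
      rw [hcard]; positivity
    rw [le_div_iff₀ h2]
    have h3 : ((7 * i * Nat.card (A i).Q ^ 2 : ℕ) : ℝ) ≤ ((512 * (A i).gameLength 2 : ℕ) : ℝ) := by
      exact_mod_cast hlow i
    push_cast at h3
    linarith

end Pool.Agent.Results.MP_3d7070_lc.SuperquadraticGame
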